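import Mathlib

/-!
# Perfect powers among `a(n) = ∑ (i!) ^ ((n - i + 1)!)`

If `a(n) = b ^ e` with `n > 4`, `b, e > 1` then all prime factors of `e` are at least `n`.
-/

set_option autoImplicit false

namespace Pool.Agent.Results.MP_ffd2af_nt.LargePrimeExponentsH85

open Finset Nat

/-- `a(n)` -/
def a (n : ℕ) : ℕ := ∑ i ∈ Finset.Icc 1 n, i ! ^ (n - i + 1)!

/-- the terms from `i = 3` on -/
def R (n : ℕ) : ℕ := ∑ i ∈ Finset.Icc 3 n, i ! ^ (n - i + 1)!

lemma a_eq {n : ℕ} (hn : 3 ≤ n) : a n = 1 + 2 ^ (n - 1)! + R n := by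
  unfold a R
  have h1 : Finset.Icc 1 n = insert 1 (insert 2 (Finset.Icc 3 n)) := by
    ext i
    simp only [Finset.mem_Icc, Finset.mem_insert]
    omega
  rw [h1, Finset.sum_insert, Finset.sum_insert]
  · have h2 : n - 2 + 1 = n - 1 := by omega
    rw [h2]
    simp
    ring
  · simp
  · simp

/-- the terms decrease -/
lemma term_le {n : ℕ} (i : ℕ) (hi : 3 ≤ i) (hin : i ≤ n) :
    i ! ^ (n - i + 1)! ≤ 6 ^ (n - 2)! := by
  induction i, hi using Nat.le_induction with
  | base =>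
    have h : n - 3 + 1 = n - 2 := by omega
    rw [h]
    exact le_of_eq rfl
  | succ i hi ih =>
    refine le_trans ?_ (ih (by omega))
    have h1 : n - i + 1 = (n - (i + 1) + 1) + 1 := by omega
    rw [h1, Nat.factorial_succ (n - (i + 1) + 1), pow_mul]
    refine Nat.pow_le_pow_left ?_ _
    have h2 : i + 1 ≤ i ! := by
      have h3 : i * (i - 1)! = i ! := Nat.mul_factorial_pred (by omega)
      have h4 : 2 ≤ (i - 1)! := by
        calc 2 = (2)! := rfl
          _ ≤ (i - 1)! := Nat.factorial_le (by omega)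
      nlinarith
    calc (i + 1)! = (i + 1) * i ! := Nat.factorial_succ i
      _ ≤ i ! * i ! := Nat.mul_le_mul_right _ h2
      _ = i ! ^ 2 := by ring
      _ ≤ i ! ^ (n - (i + 1) + 1 + 1) := Nat.pow_le_pow_right (Nat.factorial_pos i) (by omega)

lemma R_le {n : ℕ} (hn : 3 ≤ n) : R n ≤ (n - 2) * 6 ^ (n - 2)! := by
  unfold R
  refine (Finset.sum_le_card_nsmul _ _ (6 ^ (n - 2)!) fun i hi => ?_).trans ?_
  · rw [Finset.mem_Icc] at hi
    exact term_le i hi.1 hi.2
  · rw [Nat.card_Icc, smul_eq_mul]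
    have : n + 1 - 3 = n - 2 := by omega
    rw [this]

/-- the terms from `i = 3` on are small -/
lemma R_lt {n : ℕ} (hn : 7 ≤ n) : R n < 2 * 2 ^ ((n - 1)! / 2) := by
  obtain ⟨k, hk⟩ : 5 ∣ (n - 2)! := Nat.dvd_factorial (by norm_num) (by omega)
  have h1 : (n - 1)! = (n - 1) * (n - 2)! := by
    have : n - 2 = n - 1 - 1 := by omega
    rw [this, Nat.mul_factorial_pred (by omega)]
  have hk1 : n - 2 ≤ k := by
    have h3 : (n - 2) * (n - 3)! = (n - 2)! := by
      have : n - 3 = n - 2 - 1 := by omega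
      rw [this, Nat.mul_factorial_pred (by omega)]
    have h4 : 24 ≤ (n - 3)! := by
      calc 24 = (4)! := rfl
        _ ≤ (n - 3)! := Nat.factorial_le (by omega)
    nlinarith
  have h5 : 15 * k ≤ (n - 1)! / 2 := by
    rw [Nat.le_div_iff_mul_le (by norm_num), h1, hk]
    have h6 : 6 ≤ n - 1 := by omega
    nlinarith
  have h7 : 6 ^ (n - 2)! ≤ 2 ^ (13 * k) := by
    rw [hk, pow_mul, pow_mul]
    exact Nat.pow_le_pow_left (by norm_num) _
  calc R n ≤ (n - 2) * 6 ^ (n - 2)! := R_le (by omega)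
    _ ≤ (n - 2) * 2 ^ (13 * k) := Nat.mul_le_mul_left _ h7
    _ < 2 ^ (2 * k) * 2 ^ (13 * k) := by
        refine Nat.mul_lt_mul_of_pos_right ?_ (by positivity)
        calc n - 2 ≤ k := hk1
          _ < 2 ^ k := Nat.lt_two_pow_self
          _ ≤ 2 ^ (2 * k) := Nat.pow_le_pow_right (by norm_num) (by omega)
    _ = 2 ^ (15 * k) := by rw [← pow_add]; congr 1; ring
    _ ≤ 2 ^ ((n - 1)! / 2) := Nat.pow_le_pow_right (by norm_num) h5
    _ ≤ 2 * 2 ^ ((n - 1)! / 2) := by omega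

/-- between consecutive powers -/
lemma no_pow {n l c : ℕ} (hn : 3 ≤ n) (hl : 2 ≤ l) (hln : l ∣ (n - 1)!)
    (hR : R n < 2 * 2 ^ ((n - 1)! / 2)) : a n ≠ c ^ l := by
  intro h
  obtain ⟨M, hM⟩ := hln
  have h1 : (2 ^ M) ^ l = 2 ^ (n - 1)! := by rw [← pow_mul, hM, mul_comm]
  have h2 : 2 ^ M < c := by
    have h3 : (2 ^ M) ^ l < c ^ l := by
      rw [h1, ← h, a_eq hn]
      omega
    exact lt_of_pow_lt_pow_left₀ l (Nat.zero_le _) h3
  have h4 : (2 ^ M + 1) ^ l ≤ c ^ l := Nat.pow_le_pow_left h2 l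
  have h5 : (2 ^ M) ^ l + l * (2 ^ M) ^ (l - 1) + 1 ≤ (2 ^ M + 1) ^ l := by
    obtain ⟨m, rfl⟩ : ∃ m, l = m + 2 := ⟨l - 2, by omega⟩
    have h6 : m + 2 - 1 = m + 1 := by omega
    rw [h6]
    generalize 2 ^ M = x
    clear h4 h2 h1 hM h hR hl h6
    induction m with
    | zero => exact le_of_eq (by ring)
    | succ m ih =>
      have h7 : (x + 1) ^ (m + 1 + 2) = (x + 1) ^ (m + 2) * (x + 1) := by ring
      rw [h7]
      have h8 := Nat.mul_le_mul_right (x + 1) ih
      refine le_trans ?_ h8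
      have h9 : (x ^ (m + 2) + (m + 2) * x ^ (m + 1) + 1) * (x + 1) =
        x ^ (m + 1 + 2) + (m + 1 + 2) * x ^ (m + 1 + 1) + 1 + ((m + 2) * x ^ (m + 1) + x) := by ring
      rw [h9]
      exact Nat.le_add_right _ _
  have h6 : 2 * 2 ^ ((n - 1)! / 2) ≤ l * (2 ^ M) ^ (l - 1) := by
    refine Nat.mul_le_mul hl ?_
    rw [← pow_mul]
    refine Nat.pow_le_pow_right (by norm_num) ?_
    rw [hM]
    have h7 : l * M / 2 ≤ M * (l - 1) := by
      have h8 : l * M ≤ M * (l - 1) * 2 := by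
        obtain ⟨m, rfl⟩ : ∃ m, l = m + 2 := ⟨l - 2, by omega⟩
        have : m + 2 - 1 = m + 1 := by omega
        rw [this]
        nlinarith
      omega
    exact h7
  rw [a_eq hn, ← h1] at h
  omega

lemma between {x l N c : ℕ} (h1 : x ^ l < N) (h2 : N < (x + 1) ^ l) : N ≠ c ^ l := by
  rintro rfl
  have h3 := lt_of_pow_lt_pow_left₀ l (Nat.zero_le _) h1
  have h4 := lt_of_pow_lt_pow_left₀ l (Nat.zero_le _) h2
  omega

lemma a_five : a 5 = 16824569 := by
  unfold a
  simp [Finset.sum_Icc_succ_top, Nat.factorial]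

lemma a_six : a 6 = 1 + 2 ^ 120 + 6 ^ 24 + 24 ^ 6 + 120 ^ 2 + 720 := by
  unfold a
  simp [Finset.sum_Icc_succ_top, Nat.factorial]

/-- no exponent has a prime factor below `n` -/
lemma no_small {n l c : ℕ} (hn : 4 < n) (hl : l.Prime) (hln : l < n) : a n ≠ c ^ l := by
  rcases Nat.lt_or_ge n 7 with h | h
  · have h2 := hl.two_le
    obtain rfl | rfl : n = 5 ∨ n = 6 := by omega
    · rw [a_five]
      have hc : l = 2 ∨ l = 3 ∨ l = 4 := by omega
      rcases hc with rfl | rfl | rfl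
      · exact between (x := 4101) (by norm_num) (by norm_num)
      · exact between (x := 256) (by norm_num) (by norm_num)
      · exact absurd hl (by norm_num)
    · rw [a_six]
      have hc : l = 2 ∨ l = 3 ∨ l = 4 ∨ l = 5 := by omega
      rcases hc with rfl | rfl | rfl | rfl
      · exact between (x := 2 ^ 60 + 2) (by norm_num) (by norm_num)
      · exact between (x := 2 ^ 40) (by norm_num) (by norm_num)
      · exact absurd hl (by norm_num)
      · exact between (x := 2 ^ 24) (by norm_num) (by norm_num)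
  · exact no_pow (by omega) hl.two_le ((Nat.Prime.dvd_factorial hl).2 (by omega)) (R_lt h)

lemma a_lt {n : ℕ} (hn : 4 < n) : a n < 2 ^ ((n - 1)! + 1) := by
  rcases Nat.lt_or_ge n 7 with h | h
  · obtain rfl | rfl : n = 5 ∨ n = 6 := by omega
    · rw [a_five]
      norm_num [Nat.factorial]
    · rw [a_six]
      norm_num [Nat.factorial]
  · rw [a_eq (by omega)]
    have h1 := R_lt h
    have h2 : 4 ≤ (n - 1)! := by
      calc 4 ≤ (4)! := by norm_num [Nat.factorial]
        _ ≤ (n - 1)! := Nat.factorial_le (by omega)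
    have h3 : 2 * 2 ^ ((n - 1)! / 2) ≤ 2 ^ ((n - 1)! - 1) := by
      rw [← pow_succ']
      exact Nat.pow_le_pow_right (by norm_num) (by omega)
    have h4 : 2 ^ (n - 1)! = 2 * 2 ^ ((n - 1)! - 1) := by
      rw [← pow_succ']
      congr 1
      omega
    have h5 : 1 ≤ 2 ^ ((n - 1)! - 1) := Nat.one_le_two_pow
    rw [pow_succ]
    omega

lemma unit_one {m e : ℕ} {x : ZMod m} (he : e ≠ 0) (hx : x ^ e = 1)
    (hcop : Nat.Coprime e (φ m)) : x = 1 := by
  obtain ⟨u, rfl⟩ := IsUnit.of_pow_eq_one hx he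
  have h1 : u ^ e = 1 := Units.ext (by rw [Units.val_pow_eq_pow_val, hx, Units.val_one])
  have h2 : u ^ φ m = 1 := ZMod.pow_totient u
  have h3 : orderOf u ∣ Nat.gcd e (φ m) :=
    Nat.dvd_gcd (orderOf_dvd_of_pow_eq_one h1) (orderOf_dvd_of_pow_eq_one h2)
  rw [hcop, Nat.dvd_one, orderOf_eq_one_iff] at h3
  rw [h3, Units.val_one]

lemma two_dvd_fact (i : ℕ) : 2 ^ (i / 2) ∣ i ! := by
  induction i using Nat.strong_induction_on with
  | _ i ih =>
    rcases Nat.lt_or_ge i 2 with h | h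
    · have : i / 2 = 0 := by omega
      rw [this]
      simp
    · obtain ⟨j, rfl⟩ : ∃ j, i = j + 2 := ⟨i - 2, by omega⟩
      have h1 : (j + 2) / 2 = j / 2 + 1 := by omega
      rw [h1, pow_succ', Nat.factorial_succ, Nat.factorial_succ, ← mul_assoc]
      refine Nat.mul_dvd_mul ?_ (ih j (by omega))
      have : Even ((j + 1) * (j + 1 + 1)) := Nat.even_mul_succ_self (j + 1)
      rw [mul_comm]
      exact this.two_dvd

lemma mod_two {n : ℕ} (hn : 4 < n) : ((a n : ℕ) : ZMod (2 ^ (n / 2))) = 1 := by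
  rw [a]
  push_cast
  have h1 : Finset.Icc 1 n = insert 1 (Finset.Icc 2 n) := by
    ext i
    simp only [Finset.mem_Icc, Finset.mem_insert]
    omega
  rw [h1, Finset.sum_insert (by simp), Finset.sum_eq_zero]
  · simp
  · intro i hi
    rw [Finset.mem_Icc] at hi
    have h2 : 2 ^ (n / 2) ∣ i ! ^ (n - i + 1)! := by
      have h3 : (2 ^ (i / 2)) ^ (n - i + 1)! ∣ i ! ^ (n - i + 1)! :=
        pow_dvd_pow_of_dvd (two_dvd_fact i) _
      refine dvd_trans ?_ h3
      rw [← pow_mul]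
      refine pow_dvd_pow 2 ?_
      have h4 := Nat.self_le_factorial (n - i + 1)
      have h5 : 1 ≤ i / 2 := by omega
      have h6 : n / 2 ≤ i / 2 + (n - i) := by omega
      calc n / 2 ≤ i / 2 + (n - i) := h6
        _ ≤ i / 2 * (n - i + 1) := by nlinarith
        _ ≤ i / 2 * (n - i + 1)! := Nat.mul_le_mul_left _ h4
    have h7 : (((i ! ^ (n - i + 1)! : ℕ)) : ZMod (2 ^ (n / 2))) = 0 :=
      (ZMod.natCast_eq_zero_iff _ _).2 h2
    push_cast at h7
    exact h7

lemma mod_odd {n p : ℕ} (hp : p.Prime) (h : 2 * p ≤ n + 3) (hpn : p ≤ n + 1) :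
    ((a n : ℕ) : ZMod p) = -1 := by
  have : Fact p.Prime := ⟨hp⟩
  rw [a]
  push_cast
  have h1 : ∀ i ∈ Finset.Icc 1 n, ((i ! : ℕ) : ZMod p) ^ (n - i + 1)! =
      if i < p then 1 else 0 := by
    intro i hi
    rw [Finset.mem_Icc] at hi
    split_ifs with hip
    · have h2 : ((i ! : ℕ) : ZMod p) ≠ 0 := by
        rw [Ne, ZMod.natCast_eq_zero_iff, hp.dvd_factorial]
        omega
      have h3 : p - 1 ∣ (n - i + 1)! :=
        Nat.dvd_factorial (by have := hp.two_le; omega) (by omega)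
      obtain ⟨k, hk⟩ := h3
      rw [hk, pow_mul, ZMod.pow_card_sub_one_eq_one h2, one_pow]
    · have h2 : ((i ! : ℕ) : ZMod p) = 0 := by
        rw [ZMod.natCast_eq_zero_iff, hp.dvd_factorial]
        omega
      rw [h2, zero_pow (Nat.factorial_ne_zero _)]
  rw [Finset.sum_congr rfl h1, Finset.sum_ite, Finset.sum_const_zero, add_zero,
    Finset.sum_const, nsmul_eq_mul, mul_one]
  have h4 : (Finset.Icc 1 n).filter (fun i => i < p) = Finset.Icc 1 (p - 1) := by
    ext i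
    simp only [Finset.mem_filter, Finset.mem_Icc]
    have := hp.two_le
    omega
  rw [h4, Nat.card_Icc]
  have h5 : p - 1 + 1 - 1 = p - 1 := by omega
  rw [h5, Nat.cast_sub hp.one_lt.le, ZMod.natCast_self]
  simp

/-- If `a(n) = b ^ e` with `n > 4` and `b, e > 1` then every prime factor of `e` is at least `n`,
`e ⌊n / 2⌋ ≤ (n - 1)!`, `b` is `1` modulo `2 ^ ⌊n / 2⌋` and `-1` modulo every odd prime up to
`(n + 3) / 2`. -/
theorem result : ∀ n b e : ℕ, 4 < n → 1 < b → 1 < e → a n = b ^ e →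
    (∀ l : ℕ, l.Prime → l ∣ e → n ≤ l) ∧
    e * (n / 2) ≤ (n - 1)! ∧
    2 ^ (n / 2) ∣ b - 1 ∧
    ∀ p : ℕ, p.Prime → p ≠ 2 → 2 * p ≤ n + 3 → p ∣ b + 1 := by
  intro n b e hn hb he h
  have h1 : ∀ l : ℕ, l.Prime → l ∣ e → n ≤ l := by
    intro l hl hle
    by_contra hc
    obtain ⟨d, rfl⟩ := hle
    refine no_small hn hl (not_le.1 hc) (c := b ^ d) ?_
    rw [h, ← pow_mul, mul_comm]
  have hcop : ∀ m : ℕ, (∀ l : ℕ, l.Prime → l ∣ m → l < n) → Nat.Coprime e m := by
    intro m hm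
    refine Nat.coprime_of_dvd fun l hl hle hlm => ?_
    exact absurd (h1 l hl hle) (not_le.2 (hm l hl hlm))
  have hodd : Odd e := by
    rw [← Nat.not_even_iff_odd]
    intro hev
    have := h1 2 Nat.prime_two hev.two_dvd
    omega
  have h3 : 2 ^ (n / 2) ∣ b - 1 := by
    have h4 : ((b : ℕ) : ZMod (2 ^ (n / 2))) ^ e = 1 := by
      rw [← mod_two hn, h]
      push_cast
      rfl
    have h5 : ((b : ℕ) : ZMod (2 ^ (n / 2))) = 1 := by
      refine unit_one (by omega) h4 (hcop _ fun l hl hlm => ?_)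
      rw [Nat.totient_prime_pow Nat.prime_two (by omega)] at hlm
      have h6 : l ∣ 2 ^ (n / 2 - 1) := by simpa using hlm
      have h7 := Nat.le_of_dvd (by norm_num) (hl.dvd_of_dvd_pow h6)
      omega
    rw [← ZMod.natCast_eq_zero_iff, Nat.cast_sub hb.le, h5]
    simp
  refine ⟨h1, ?_, h3, ?_⟩
  · have h4 : 2 ^ (n / 2) < b := by
      have := Nat.le_of_dvd (by omega) h3
      omega
    have h5 : (2 ^ (n / 2)) ^ e < b ^ e := Nat.pow_lt_pow_left h4 (by omega)
    have h6 := a_lt hn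
    rw [h] at h6
    have h7 : 2 ^ (n / 2 * e) < 2 ^ ((n - 1)! + 1) := by
      rw [pow_mul]
      exact h5.trans h6
    have h8 := (Nat.pow_lt_pow_iff_right (by norm_num : 1 < 2)).1 h7
    rw [mul_comm]
    omega
  · intro p hp hp2 hpn
    have : Fact p.Prime := ⟨hp⟩
    have h4 : (-(b : ZMod p)) ^ e = 1 := by
      rw [hodd.neg_pow]
      have h5 := mod_odd hp hpn (by omega)
      rw [h] at h5
      push_cast at h5
      rw [h5, neg_neg]
    have h5 : (-(b : ZMod p)) = 1 := by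
      refine unit_one (by omega) h4 (hcop _ fun l hl hlm => ?_)
      rw [Nat.totient_prime hp] at hlm
      have h7 := Nat.le_of_dvd (by have := hp.two_le; omega) hlm
      omega
    rw [← ZMod.natCast_eq_zero_iff]
    push_cast
    rw [← h5]
    ring

end Pool.Agent.Results.MP_ffd2af_nt.LargePrimeExponentsH85
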